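import Mathlib
import Pool.Agent.H19.BallProd

set_option autoImplicit false

namespace Pool.Agent.Results.MP_34945e_gt.Product

open Set Pool.Agent.H19.BallProd

universe u v

/-- A ballean: a family of entourages containing the diagonal, directed under `E ∘ F⁻¹` and
covering `X × X`. -/
structure Ballean (X : Type*) where
  ent : Set (Set (X × X))
  diag : ∀ E ∈ ent, diagonal X ⊆ E
  comp : ∀ E ∈ ent, ∀ F ∈ ent, ∃ D ∈ ent, {p | ∃ y, (p.1, y) ∈ E ∧ (p.2, y) ∈ F} ⊆ D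
  cover : ⋃₀ ent = univ

/-- The ball `E[x]`. -/
def ball {X : Type*} (E : Set (X × X)) (x : X) : Set X := {y | (x, y) ∈ E}

/-- Bounded sets: subsets of balls. -/
def Ballean.Bounded {X : Type*} (𝒳 : Ballean X) (B : Set X) : Prop :=
  ∃ E ∈ 𝒳.ent, ∃ x, B ⊆ ball E x

lemma conn {X : Type*} (𝒳 : Ballean X) (p : X × X) : ∃ E ∈ 𝒳.ent, p ∈ E :=
  (𝒳.cover.ge (mem_univ p) :)

/-- The product ballean, with entourages `E × F`. -/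
def Ballean.prod {X Y : Type*} (𝒳 : Ballean X) (𝒴 : Ballean Y) : Ballean (X × Y) where
  ent := {G | ∃ E ∈ 𝒳.ent, ∃ F ∈ 𝒴.ent, G = {p | (p.1.1, p.2.1) ∈ E ∧ (p.1.2, p.2.2) ∈ F}}
  diag := by
    rintro _ ⟨E, hE, F, hF, rfl⟩ p h
    exact ⟨𝒳.diag E hE (congrArg Prod.fst h), 𝒴.diag F hF (congrArg Prod.snd h)⟩
  comp := by
    rintro _ ⟨E, hE, F, hF, rfl⟩ _ ⟨E', hE', F', hF', rfl⟩
    obtain ⟨D, hD, h⟩ := 𝒳.comp E hE E' hE'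
    obtain ⟨D', hD', h'⟩ := 𝒴.comp F hF F' hF'
    exact ⟨_, ⟨D, hD, D', hD', rfl⟩, fun p ⟨z, h1, h2⟩ =>
      ⟨h ⟨z.1, h1.1, h2.1⟩, h' ⟨z.2, h1.2, h2.2⟩⟩⟩
  cover := eq_univ_of_forall fun p =>
    let ⟨E, hE, h⟩ := conn 𝒳 (p.1.1, p.2.1)
    let ⟨F, hF, h'⟩ := conn 𝒴 (p.1.2, p.2.2)
    ⟨_, ⟨E, hE, F, hF, rfl⟩, h, h'⟩

/-- Boundedly oscillating functions. -/
def Ballean.BO {X : Type*} (𝒳 : Ballean X) (f : X → ℝ) : Prop :=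
  ∃ C > 0, ∀ E ∈ 𝒳.ent, ∃ B, 𝒳.Bounded B ∧
    ∀ x ∉ B, Metric.ediam (f '' ball E x) < ENNReal.ofReal C

/-- Bo-bounded balleans. -/
def Ballean.BoBounded {X : Type*} (𝒳 : Ballean X) : Prop :=
  ∀ f : X → ℝ, 𝒳.BO f → ∃ B, 𝒳.Bounded B ∧ ∃ M, ∀ x ∉ B, |f x| ≤ M

lemma ideal {X : Type*} (𝒳 : Ballean X) : IsIdeal (Bdd 𝒳.ent) where
  mono := fun h ⟨E, hE, x, hx⟩ => ⟨E, hE, x, h.trans hx⟩
  union := fun ⟨E, hE, x, hx⟩ ⟨E', hE', x', hx'⟩ => by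
    obtain ⟨F, hF, h⟩ := conn 𝒳 (x, x')
    obtain ⟨D₁, hD₁, h₁⟩ := 𝒳.comp E' hE' E' hE'
    obtain ⟨D₂, hD₂, h₂⟩ := 𝒳.comp F hF D₁ hD₁
    obtain ⟨D₃, hD₃, h₃⟩ := 𝒳.comp E hE E hE
    obtain ⟨D, hD, h₄⟩ := 𝒳.comp D₂ hD₂ D₃ hD₃
    refine ⟨D, hD, x, fun y hy => h₄ (hy.elim (fun hy => ?_) fun hy => ?_)⟩
    · exact ⟨x, 𝒳.diag _ hD₂ rfl, h₃ ⟨y, 𝒳.diag _ hE rfl, hx hy⟩⟩
    · exact ⟨y, h₂ ⟨x', h, h₁ ⟨y, 𝒳.diag _ hE' rfl, hx' hy⟩⟩, 𝒳.diag _ hD₃ rfl⟩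

lemma bd {X : Type*} {𝒳 : Ballean X} (h : 𝒳.BoBounded) (g : X → ℝ) {C : ℝ} (hC : 0 < C)
    (hg : ∀ E ∈ 𝒳.ent, ∃ B, 𝒳.Bounded B ∧
      ∀ x ∉ B, ∀ a ∈ ball E x, ∀ b ∈ ball E x, |g a - g b| ≤ C) :
    ∃ M, Bdd 𝒳.ent {x | M < |g x|} := by
  obtain ⟨B, hB, M, hM⟩ := h g ⟨C + 1, by positivity, fun E hE => by
    obtain ⟨B, hB, h⟩ := hg E hE
    exact ⟨B, hB, fun x hx => (ediam_le (h x hx)).trans_lt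
      ((ENNReal.ofReal_lt_ofReal_iff (by positivity)).mpr (lt_add_one C))⟩⟩
  exact ⟨M, (ideal 𝒳).mono (fun x hx => by_contra fun h => (hM x h).not_gt hx) hB⟩

lemma ent_ne {X : Type*} {𝒳 : Ballean X} (h : 𝒳.BoBounded) : ∃ E, E ∈ 𝒳.ent := by
  by_contra h1
  obtain ⟨-, ⟨E, hE, -⟩, -⟩ := h 0 ⟨1, one_pos, fun E hE => (h1 ⟨E, hE⟩).elim⟩
  exact h1 ⟨E, hE⟩

/-- The product of two bo-bounded balleans is bo-bounded. -/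
theorem result {X : Type u} {Y : Type v} (𝒳 : Ballean X) (𝒴 : Ballean Y)
    (hX : 𝒳.BoBounded) (hY : 𝒴.BoBounded) : (𝒳.prod 𝒴).BoBounded := by
  rintro f ⟨C, hC, hf⟩
  obtain ⟨E₀, hE₀⟩ := ent_ne hX
  obtain ⟨F₀, hF₀⟩ := ent_ne hY
  obtain ⟨-, ⟨-, -, ⟨x₀, y₀⟩, -⟩, -⟩ := hf _ ⟨E₀, hE₀, F₀, hF₀, rfl⟩
  have : Nonempty X := ⟨x₀⟩
  have : Nonempty Y := ⟨y₀⟩
  have dX : ∀ x, (x, x) ∈ E₀ := fun _ => 𝒳.diag _ hE₀ rfl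
  have dY : ∀ y, (y, y) ∈ F₀ := fun _ => 𝒴.diag _ hF₀ rfl
  have key : ∀ E ∈ 𝒳.ent, ∀ F ∈ 𝒴.ent, ∃ B D, 𝒳.Bounded B ∧ 𝒴.Bounded D ∧
      ∀ x y, ¬ (x ∈ B ∧ y ∈ D) → ∀ p q : X × Y, (x, p.1) ∈ E → (y, p.2) ∈ F → (x, q.1) ∈ E →
        (y, q.2) ∈ F → |f p - f q| ≤ C := by
    intro E hE F hF
    obtain ⟨B, ⟨_, ⟨E', hE', F', hF', rfl⟩, a, ha⟩, h⟩ := hf _ ⟨E, hE, F, hF, rfl⟩
    exact ⟨_, _, ⟨E', hE', a.1, subset_rfl⟩, ⟨F', hF', a.2, subset_rfl⟩, fun x y hxy p q a b c d =>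
      le_of_ediam hC.le (h (x, y) fun h => hxy (ha h)).le ⟨a, b⟩ ⟨c, d⟩⟩
  obtain ⟨E, hE, F, hF, a, M, h⟩ := main' (ideal 𝒳) (ideal 𝒴) ⟨_, hE₀, dX⟩ ⟨_, hF₀, dY⟩ f
    (fun g hg => bd hX g hC fun E hE =>
      let ⟨B, _, hB, _, h⟩ := key E hE _ hF₀
      ⟨B, hB, fun x hx a ha b hb => hg a b C fun y =>
        h x y (fun h => hx h.1) (a, y) (b, y) ha (dY y) hb (dY y)⟩)
    (fun g hg => bd hY g hC fun F hF =>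
      let ⟨_, D, _, hD, h⟩ := key _ hE₀ F hF
      ⟨D, hD, fun y hy a ha b hb => hg a b C fun x =>
        h x y (fun h => hy h.2) (x, a) (x, b) (dX x) ha (dX x) hb⟩)
    (fun E hE F hF => ⟨C, key E hE F hF⟩)
  exact ⟨_, ⟨_, ⟨E, hE, F, hF, rfl⟩, a, subset_rfl⟩, M, h⟩

end Pool.Agent.Results.MP_34945e_gt.Product
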